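import Mathlib.Combinatorics.SimpleGraph.Basic
import Mathlib.Data.Fintype.Card
import Mathlib.Data.Nat.Find
import Mathlib.Logic.Function.Basic
import Mathlib.Tactic

/-!
# The domatic number game is monotone in the palette

If Alice wins the domatic number game with `k + 1` colours, she wins it with `k ≥ 1` colours: she
follows a winning strategy for `k + 1` colours in an imagined game, and whenever it tells her to
use the colour `k + 1` she uses the colour `1` in the real game.  Bob's moves are legal in the
imagined game.  This works for both starting players, so the answers to both questions are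
negative.
-/

set_option autoImplicit false

namespace Pool.Agent.Results.MP_e0e877_co.Monotone

/-- `c` is a finished position won by Alice: all vertices are coloured and every closed
neighbourhood contains all `k` colours. -/
def Good {V : Type} (H : SimpleGraph V) {k : ℕ} (c : V → Option (Fin k)) : Prop :=
  (∀ v, c v ≠ none) ∧ ∀ x : V, ∀ a : Fin k, ∃ y, (y = x ∨ H.Adj x y) ∧ c y = some a

/-- Alice has a winning strategy from the position `c` (a partial colouring with the palette
`Fin k`) when the player to move is Alice (`true`) or Bob (`false`). -/
inductive AliceWins {V : Type} [DecidableEq V] (H : SimpleGraph V) (k : ℕ) :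
    Bool → (V → Option (Fin k)) → Prop
  | finished (b : Bool) (c : V → Option (Fin k)) (h : Good H c) : AliceWins H k b c
  | alice (c : V → Option (Fin k)) (v : V) (a : Fin k) (hv : c v = none)
      (h : AliceWins H k false (Function.update c v (some a))) : AliceWins H k true c
  | bob (c : V → Option (Fin k)) (hc : ∃ v, c v = none)
      (h : ∀ v, c v = none → ∀ a : Fin k, AliceWins H k true (Function.update c v (some a))) :
      AliceWins H k false c

/-- Bob has a winning strategy from the position `c` when the player to move is Alice (`true`) or
Bob (`false`). -/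
inductive BobWins {V : Type} [DecidableEq V] (H : SimpleGraph V) (k : ℕ) :
    Bool → (V → Option (Fin k)) → Prop
  | finished (b : Bool) (c : V → Option (Fin k)) (h1 : ∀ v, c v ≠ none) (h : ¬ Good H c) :
      BobWins H k b c
  | bob (c : V → Option (Fin k)) (v : V) (a : Fin k) (hv : c v = none)
      (h : BobWins H k true (Function.update c v (some a))) : BobWins H k false c
  | alice (c : V → Option (Fin k)) (hc : ∃ v, c v = none)
      (h : ∀ v, c v = none → ∀ a : Fin k, BobWins H k false (Function.update c v (some a))) :
      BobWins H k true c

/-- Alice wins the game with palette `[k]` in which Alice (`b = true`, the A-game) or Bob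
(`b = false`, the B-game) moves first. -/
def AliceWinsGame {V : Type} [DecidableEq V] (H : SimpleGraph V) (k : ℕ) (b : Bool) : Prop :=
  AliceWins H k b (fun _ => none)

/-- Bob wins the game with palette `[k]` in which Alice (`b = true`, the A-game) or Bob
(`b = false`, the B-game) moves first. -/
def BobWinsGame {V : Type} [DecidableEq V] (H : SimpleGraph V) (k : ℕ) (b : Bool) : Prop :=
  BobWins H k b (fun _ => none)

variable {V : Type} [DecidableEq V] {H : SimpleGraph V}

/-- the uncoloured vertices -/
def free {k : ℕ} (c : V → Option (Fin k)) : Set V := {v | c v = none}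

theorem free_update {k : ℕ} (c : V → Option (Fin k)) (v : V) (a : Fin k) :
    free (Function.update c v (some a)) = free c \ {v} := by
  ext w
  by_cases h : w = v
  · subst h; simp [free]
  · simp [free, h]

theorem free_update_lt [Finite V] {k : ℕ} (c : V → Option (Fin k)) (v : V) (a : Fin k)
    (hv : c v = none) {n : ℕ} (hn : (free c).ncard ≤ n + 1) :
    (free (Function.update c v (some a))).ncard ≤ n := by
  have hv' : v ∈ free c := hv
  rw [free_update, Set.ncard_sdiff_singleton_of_mem hv']
  omega

omit [DecidableEq V] in
theorem not_none_of_free {k : ℕ} [Finite V] (c : V → Option (Fin k))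
    (h : (free c).ncard ≤ 0) : ∀ v, c v ≠ none := by
  have h1 : free c = ∅ := by
    rw [← Set.ncard_eq_zero (Set.toFinite _)]; omega
  intro v hv
  have : v ∈ free c := hv
  rw [h1] at this
  exact this

/-- Exactly one of the players has a winning strategy. -/
theorem bob_iff_not_alice [Finite V] {k : ℕ} :
    ∀ (n : ℕ) (c : V → Option (Fin k)), (free c).ncard ≤ n → ∀ b,
      (BobWins H k b c ↔ ¬ AliceWins H k b c) := by
  intro n
  induction n with
  | zero =>
    intro c hc b
    have h0 := not_none_of_free c hc
    by_cases hg : Good H c
    · constructor
      · intro hb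
        exfalso
        cases hb with
        | finished _ _ _ h => exact h hg
        | bob _ v _ hv _ => exact h0 v hv
        | alice _ hc _ => obtain ⟨v, hv⟩ := hc; exact h0 v hv
      · intro h; exact absurd (AliceWins.finished b c hg) h
    · constructor
      · intro _ ha
        cases ha with
        | finished _ _ h => exact hg h
        | alice _ v _ hv _ => exact h0 v hv
        | bob _ hc _ => obtain ⟨v, hv⟩ := hc; exact h0 v hv
      · intro _; exact BobWins.finished b c h0 hg
  | succ n ih =>
    intro c hc b
    by_cases hex : ∃ v, c v = none
    · cases b with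
      | true =>
        constructor
        · intro hb ha
          cases hb with
          | finished _ _ h _ => obtain ⟨v, hv⟩ := hex; exact h v hv
          | alice _ _ h =>
            cases ha with
            | finished _ _ h' => obtain ⟨v, hv⟩ := hex; exact h'.1 v hv
            | alice _ v a hv h' =>
              exact (ih _ (free_update_lt c v a hv hc) false).1 (h v hv a) h'
        · intro ha
          refine BobWins.alice c hex (fun v hv a => ?_)
          rw [ih _ (free_update_lt c v a hv hc) false]
          exact fun h' => ha (AliceWins.alice c v a hv h')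
      | false =>
        constructor
        · intro hb ha
          cases hb with
          | finished _ _ h _ => obtain ⟨v, hv⟩ := hex; exact h v hv
          | bob _ v a hv h =>
            cases ha with
            | finished _ _ h' => exact h'.1 v hv
            | bob _ _ h' =>
              exact (ih _ (free_update_lt c v a hv hc) true).1 h (h' v hv a)
        · intro ha
          by_contra hcon
          refine ha (AliceWins.bob c hex (fun v hv a => ?_))
          by_contra h'
          exact hcon (BobWins.bob c v a hv ((ih _ (free_update_lt c v a hv hc) true).2 h'))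
    · push Not at hex
      have h1 : (free c).ncard ≤ n := by
        have : free c = ∅ := by
          ext v
          simp only [free, Set.mem_ofPred_eq, Set.mem_empty_iff_false, iff_false]
          exact hex v
        rw [this, Set.ncard_empty]
        omega
      exact ih c h1 b

/-- the real colour of an imagined colour: the last colour is replaced by the first one -/
def f {k : ℕ} (hk : 0 < k) (a : Fin (k + 1)) : Fin k :=
  if h : a.val < k then ⟨a.val, h⟩ else ⟨0, hk⟩

theorem f_castSucc {k : ℕ} (hk : 0 < k) (a : Fin k) : f hk a.castSucc = a := by
  unfold f
  rw [dif_pos (by simp)]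
  rfl

theorem mono_aux {k : ℕ} (hk : 0 < k) (b : Bool) (c : V → Option (Fin (k + 1)))
    (h : AliceWins H (k + 1) b c) : AliceWins H k b (fun v => (c v).map (f hk)) := by
  have hup : ∀ (c : V → Option (Fin (k + 1))) (v : V) (a : Fin (k + 1)),
      (fun w => (Function.update c v (some a) w).map (f hk)) =
        Function.update (fun w => (c w).map (f hk)) v (some (f hk a)) := by
    intro c v a
    funext w
    by_cases hw : w = v
    · subst hw; simp
    · simp [hw]
  induction h with
  | finished b c h =>
    refine AliceWins.finished _ _ ⟨fun v hv => h.1 v ?_, fun x a => ?_⟩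
    · simpa using hv
    · obtain ⟨y, hy, hc⟩ := h.2 x a.castSucc
      exact ⟨y, hy, by simp only [hc, Option.map_some, f_castSucc]⟩
  | alice c v a hv h ih =>
    rw [hup] at ih
    exact AliceWins.alice _ v (f hk a) (by simp only [hv, Option.map_none]) ih
  | bob c hc h ih =>
    refine AliceWins.bob _ ?_ ?_
    · obtain ⟨v, hv⟩ := hc
      exact ⟨v, by simp only [hv, Option.map_none]⟩
    · intro v hv a
      have hv' : c v = none := by simpa using hv
      have := ih v hv' a.castSucc
      rw [hup, f_castSucc] at this
      exact this

theorem mono {k : ℕ} (hk : 0 < k) (b : Bool) (h : AliceWinsGame H (k + 1) b) :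
    AliceWinsGame H k b := by
  have := mono_aux hk b _ h
  simpa [AliceWinsGame] using this

/-- Alice wins with one colour. -/
theorem one_wins [Finite V] : ∀ (n : ℕ) (c : V → Option (Fin 1)), (free c).ncard ≤ n → ∀ b,
    AliceWins H 1 b c := by
  intro n
  have key : ∀ (c : V → Option (Fin 1)), (∀ v, c v ≠ none) → Good H c := by
    intro c h0
    refine ⟨h0, fun x a => ⟨x, Or.inl rfl, ?_⟩⟩
    obtain ⟨a', ha'⟩ := Option.ne_none_iff_exists'.1 (h0 x)
    rw [ha']
    congr 1
    exact Subsingleton.elim _ _
  induction n with
  | zero =>
    intro c hc b
    exact AliceWins.finished b c (key c (not_none_of_free c hc))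
  | succ n ih =>
    intro c hc b
    by_cases hex : ∃ v, c v = none
    · cases b with
      | true =>
        obtain ⟨v, hv⟩ := hex
        exact AliceWins.alice c v 0 hv (ih _ (free_update_lt c v 0 hv hc) false)
      | false =>
        exact AliceWins.bob c hex (fun v hv a => ih _ (free_update_lt c v a hv hc) true)
    · push Not at hex
      exact AliceWins.finished b c (key c hex)

/-- If Alice wins with `k` colours, there is a colouring with all colours in use. -/
theorem card_bound [Finite V] [Nonempty V] {k : ℕ} (b : Bool) (c : V → Option (Fin k))
    (h : AliceWins H k b c) : k ≤ Nat.card V := by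
  induction h with
  | finished b c h =>
    obtain ⟨x⟩ := (inferInstance : Nonempty V)
    choose y _ hy using h.2 x
    have hinj : Function.Injective y := by
      intro a a' haa'
      have h1 := hy a
      rw [haa', hy a'] at h1
      exact (Option.some.inj h1).symm
    have := Nat.card_le_card_of_injective y hinj
    simpa using this
  | alice c v a hv h ih => exact ih
  | bob c hc h ih =>
    obtain ⟨v, hv⟩ := hc
    by_cases hk : 0 < k
    · exact ih v hv ⟨0, hk⟩
    · omega

theorem initial_segment (P : ℕ → Prop) (h1 : P 1) (hmono : ∀ k, 0 < k → P (k + 1) → P k)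
    (B : ℕ) (hB : ∀ k, P k → k ≤ B) : ∃ m, 1 ≤ m ∧ ∀ k, 1 ≤ k → (P k ↔ k ≤ m) := by
  classical
  have hB1 : 1 ≤ B := hB 1 h1
  refine ⟨Nat.findGreatest P B, Nat.le_findGreatest hB1 h1, fun k hk => ⟨fun h => ?_, fun h => ?_⟩⟩
  · exact Nat.le_findGreatest (hB k h) h
  · have hm : P (Nat.findGreatest P B) := Nat.findGreatest_spec hB1 h1
    have key : ∀ j, k + j = Nat.findGreatest P B → P k := by
      have : ∀ j k, 1 ≤ k → P (k + j) → P k := by
        intro j
        induction j with
        | zero => intro k _ h; exact h
        | succ j ih => intro k hk h; exact ih k hk (hmono (k + j) (by omega) h)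
      intro j hj
      rw [← hj] at hm
      exact this j k hk hm
    exact key (Nat.findGreatest P B - k) (by omega)

/-- For every finite graph `H` with at least one vertex, in the A-game (`b = true`) as well as in
the B-game (`b = false`): exactly one player wins for each palette; there is an integer `m ≥ 1`
such that Alice wins with palette `[k]` exactly when `k ≤ m` (for all `k ≥ 1`); in particular
there is no `k ≥ 1` for which the game with palette `[k]` is a Bob win while the game with palette
`[k+1]` is an Alice win. -/
theorem result (V : Type) [DecidableEq V] [Finite V] [Nonempty V] (H : SimpleGraph V) (b : Bool) :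
    (∀ k : ℕ, BobWinsGame H k b ↔ ¬ AliceWinsGame H k b) ∧
    (∃ m : ℕ, 1 ≤ m ∧ ∀ k : ℕ, 1 ≤ k → (AliceWinsGame H k b ↔ k ≤ m)) ∧
    (∀ k : ℕ, 1 ≤ k → ¬ (BobWinsGame H k b ∧ AliceWinsGame H (k + 1) b)) := by
  have hdet : ∀ k : ℕ, BobWinsGame H k b ↔ ¬ AliceWinsGame H k b :=
    fun k => bob_iff_not_alice _ _ le_rfl b
  refine ⟨hdet, ?_, ?_⟩
  · exact initial_segment (fun k => AliceWinsGame H k b) (one_wins _ _ le_rfl b)
      (fun k hk h => mono hk b h) (Nat.card V) (fun k h => card_bound b _ h)
  · rintro k hk ⟨h1, h2⟩
    exact (hdet k).1 h1 (mono hk b h2)

end Pool.Agent.Results.MP_e0e877_co.Monotone
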